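import Pool.Agent.helper29.RS.SpecK

/-!
# RS, row PKT: the packet theorem
-/

set_option autoImplicit false

open scoped MatrixGroups ContDiff Topology UpperHalfPlane ComplexConjugate
open UpperHalfPlane MeasureTheory Filter Set

namespace Pool.Agent.RS

noncomputable section

theorem PKT_cont (φ : ℍ → ℂ) (h : QU.CD 2 φ) : Continuous φ := by
  have h1 : ContinuousOn (QU.onC φ) {w : ℂ | 0 < w.im} := h.continuousOn
  have h2 : Continuous (fun z : ℍ => QU.onC φ (z : ℂ)) :=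
    h1.comp_continuous UpperHalfPlane.continuous_coe (fun z => z.im_pos)
  refine h2.congr fun z => ?_
  show φ (ofComplex (z : ℂ)) = φ z
  rw [ofComplex_apply]

theorem PKT_mono (w w' : ℝ) (c : ℍ → ℂ) (h : TB w c) (hw : w ≤ w') : TB w' c :=
  ⟨h.1, fun z hz => ⟨(h.2 z hz).1.trans hw, (h.2 z hz).2.trans hw⟩⟩

theorem PKT_bump (w : ℝ) (hw : 0 < w) : ∃ α : ℝ → ℝ, SB w α ∧ (∀ x, 0 ≤ α x) ∧ 0 < ∫ x : ℝ, α x ∧
    0 < ∫ x : ℝ, α x ^ 2 := by
  let f : ContDiffBump (0 : ℝ) := ⟨w / 2, w, by positivity, by linarith⟩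
  have hcont : Continuous (f : ℝ → ℝ) := f.continuous
  have hc : HasCompactSupport (f : ℝ → ℝ) := f.hasCompactSupport
  have h0 : (f : ℝ → ℝ) 0 ≠ 0 := by
    rw [f.one_of_mem_closedBall (by simp [f.rIn_pos.le])]
    exact one_ne_zero
  refine ⟨f, ⟨f.contDiff, fun x hx => ?_⟩, fun x => f.nonneg, ?_, ?_⟩
  · have h1 : x ∈ Function.support (f : ℝ → ℝ) := hx
    rw [f.support_eq, Metric.mem_ball, dist_zero_right, Real.norm_eq_abs] at h1
    exact h1.le
  · exact hcont.integral_pos_of_hasCompactSupport_nonneg_nonzero hc (fun x => f.nonneg) h0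
  · refine (hcont.pow 2).integral_pos_of_hasCompactSupport_nonneg_nonzero ?_ (fun x => sq_nonneg _) (x := 0) (pow_ne_zero 2 h0)
    exact hc.comp_left (g := fun y : ℝ => y ^ 2) (by norm_num)

theorem PKT (hCV1 : CV1_stmt) (hFL0 : FL0_stmt) (hNM2 : NM2_stmt) (hOV2 : OV2_stmt) (hINB : INB_stmt) (hQNT : QNT_stmt) : PKT_stmt := by
  have _h := hFL0
  intro Γ F V hΓ hF hV hV2 hV0 hV1 η hη
  obtain ⟨B, hB, hinb⟩ := hINB Γ F V hΓ hF hV hV2
  obtain ⟨w0, hw0, hqnt⟩ := hQNT Γ F V hΓ hF hV hV0 hV1 (η / 4) (by positivity)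
  obtain ⟨ρ, hρdef⟩ : ∃ ρ : ℝ, ρ = η / (4 * (B + 1)) := ⟨_, rfl⟩
  have hρ : 0 < ρ := by rw [hρdef]; positivity
  have hBρ : B * ρ ≤ η / 4 := by
    rw [hρdef, mul_div_assoc', div_le_div_iff₀ (by positivity) (by norm_num)]
    nlinarith
  obtain ⟨κ, hκdef⟩ : ∃ κ : ℝ, κ = min (η / 4) (ρ ^ 2 / 2) := ⟨_, rfl⟩
  have hκ : 0 < κ := by rw [hκdef]; exact lt_min (by positivity) (by positivity)
  have hκ1 : κ ≤ η / 4 := by rw [hκdef]; exact min_le_left _ _
  have hκ2 : κ ≤ ρ ^ 2 / 2 := by rw [hκdef]; exact min_le_right _ _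
  obtain ⟨w, hwdef⟩ : ∃ w : ℝ, w = min (min w0 (1 / 64)) (min η κ) := ⟨_, rfl⟩
  have hw : 0 < w := by rw [hwdef]; exact lt_min (lt_min hw0 (by norm_num)) (lt_min hη hκ)
  have hww0 : w ≤ w0 := by rw [hwdef]; exact (min_le_left _ _).trans (min_le_left _ _)
  have hw64 : w ≤ 1 / 64 := by rw [hwdef]; exact (min_le_left _ _).trans (min_le_right _ _)
  have hwη : w ≤ η := by rw [hwdef]; exact (min_le_right _ _).trans (min_le_left _ _)
  have hwκ : w ≤ κ := by rw [hwdef]; exact (min_le_right _ _).trans (min_le_right _ _)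
  have hw2 : w ^ 2 ≤ κ := by nlinarith
  obtain ⟨α, hα, hα0, hα1, hα2⟩ := PKT_bump w hw
  obtain ⟨hTB, -, -, -⟩ := hCV1.2.2 w α α hα hα
  obtain ⟨A, r0, hA, hr0, hnm⟩ := hNM2 Γ F w α α hΓ hF hw (by linarith) hα hα hα0 hα1 hα2 κ hκ
  have hreal : ∀ z, conj (pc α α z) = pc α α z := fun z => Complex.conj_ofReal _
  obtain ⟨K1, hK1, hinb2⟩ := hinb (pc α α) (PKT_mono w _ _ hTB (by linarith)) hreal
  obtain ⟨K2, hK2, hov⟩ := hOV2 (pc α α) (PKT_mono w _ _ hTB hw64)
  have hK0 : 0 ≤ 4 * K1 / (A * η) := by positivity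
  obtain ⟨K, hKdef⟩ : ∃ K : ℝ, K = K2 + 4 * K1 / (A * η) := ⟨_, rfl⟩
  have hK : 0 < K := by rw [hKdef]; linarith
  refine ⟨pc α α, A, K, max r0 100, PKT_mono w _ _ hTB hwη, hreal, hA, hK, hr0.trans (le_max_left _ _), fun r hr => ?_⟩
  have hr0' : r0 ≤ r := (le_max_left _ _).trans hr
  have hr100 : 100 ≤ r := (le_max_right _ _).trans hr
  have hrpos : 0 < r := by linarith
  obtain ⟨hup, hnm2⟩ := hnm r hr0'
  refine ⟨hup, fun g g' => ?_, fun s φ hs hφ => ?_⟩
  · refine (hov r g g' (by linarith)).trans ?_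
    apply div_le_div_of_nonneg_right _ (Real.sqrt_nonneg r)
    rw [hKdef]
    linarith
  · obtain ⟨hlow, hxm⟩ := hnm2 s φ hs hφ
    have hinv : InvC Γ φ := ⟨PKT_cont φ hφ.1, hφ.2.1⟩
    have hnn : 0 ≤ nn F φ := integral_nonneg fun z => sq_nonneg _
    have hAr : 0 < A / r := by positivity
    have hX : 0 ≤ A / r * nn F φ := by positivity
    constructor
    · refine le_trans ?_ hlow
      have : (1 - η) * (A / r * nn F φ) ≤ (1 - 2 * w ^ 2 - κ) * (A / r * nn F φ) :=
        mul_le_mul_of_nonneg_right (by linarith) hX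
      linarith
    · intro t ht het
      have e1 := hinb2 r s t φ (by linarith) hs (by linarith) ht hφ
      have e2 := hqnt w (pc α α) r (A / r) hw hww0 hTB hup hAr.le φ hinv
      have e3 := hup φ hinv
      have e4 : Real.sqrt (qn F (pc α α) r φ) ≤ Real.sqrt (A / r * nn F φ) := Real.sqrt_le_sqrt e3
      have e5 : Real.sqrt (qn F (xm (pc α α)) r φ) ≤ ρ * Real.sqrt (A / r * nn F φ) := by
        have : ρ * Real.sqrt (A / r * nn F φ) = Real.sqrt (ρ ^ 2 * (A / r * nn F φ)) := by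
          rw [Real.sqrt_mul (sq_nonneg ρ), Real.sqrt_sq hρ.le]
        rw [this]
        apply Real.sqrt_le_sqrt
        refine hxm.trans ?_
        rw [mul_assoc]
        exact mul_le_mul_of_nonneg_right (by linarith) hX
      have e6 : Real.sqrt (qn F (pc α α) r φ) * Real.sqrt (qn F (xm (pc α α)) r φ) ≤ ρ * (A / r * nn F φ) := by
        calc Real.sqrt (qn F (pc α α) r φ) * Real.sqrt (qn F (xm (pc α α)) r φ) ≤
            Real.sqrt (A / r * nn F φ) * (ρ * Real.sqrt (A / r * nn F φ)) :=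
              mul_le_mul e4 e5 (Real.sqrt_nonneg _) (Real.sqrt_nonneg _)
          _ = ρ * (Real.sqrt (A / r * nn F φ) * Real.sqrt (A / r * nn F φ)) := by ring
          _ = ρ * (A / r * nn F φ) := by rw [Real.mul_self_sqrt hX]
      have e7 : B * (Real.sqrt (qn F (pc α α) r φ) * Real.sqrt (qn F (xm (pc α α)) r φ)) ≤ η / 4 * (A / r * nn F φ) := by
        calc B * (Real.sqrt (qn F (pc α α) r φ) * Real.sqrt (qn F (xm (pc α α)) r φ)) ≤ B * (ρ * (A / r * nn F φ)) :=
              mul_le_mul_of_nonneg_left e6 hB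
          _ = (B * ρ) * (A / r * nn F φ) := by ring
          _ ≤ η / 4 * (A / r * nn F φ) := mul_le_mul_of_nonneg_right hBρ hX
      have e8 : K1 * Real.exp t / r ^ 2 ≤ η / 4 * (A / r) := by
        have h1 : K1 ≤ A * η / 4 * K := by
          have h2 : 4 * K1 / (A * η) ≤ K := by rw [hKdef]; linarith
          rw [div_le_iff₀ (by positivity)] at h2
          linarith
        have h3 : K * Real.exp t ≤ r := by
          rw [le_div_iff₀ hK] at het
          linarith
        have h4 : K1 * Real.exp t ≤ A * η / 4 * r := by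
          calc K1 * Real.exp t ≤ (A * η / 4 * K) * Real.exp t := mul_le_mul_of_nonneg_right h1 (Real.exp_nonneg t)
            _ = A * η / 4 * (K * Real.exp t) := by ring
            _ ≤ A * η / 4 * r := mul_le_mul_of_nonneg_left h3 (by positivity)
        calc K1 * Real.exp t / r ^ 2 ≤ (A * η / 4 * r) / r ^ 2 := div_le_div_of_nonneg_right h4 (by positivity)
          _ = η / 4 * (A / r) := by field_simp
      have e9 : K1 * Real.exp t / r ^ 2 * nn F φ ≤ η / 4 * (A / r * nn F φ) := by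
        calc K1 * Real.exp t / r ^ 2 * nn F φ ≤ η / 4 * (A / r) * nn F φ := mul_le_mul_of_nonneg_right e8 hnn
          _ = η / 4 * (A / r * nn F φ) := by ring
      have e10 := (abs_le.mp e1).2
      have e11 : A / r * ((∫ z in F, V z * ‖φ z‖ ^ 2) + η / 4 * nn F φ) =
          A / r * (∫ z in F, V z * ‖φ z‖ ^ 2) + η / 4 * (A / r * nn F φ) := by ring
      have e12 : A / r * ((∫ z in F, V z * ‖φ z‖ ^ 2) + η * nn F φ) =
          A / r * (∫ z in F, V z * ‖φ z‖ ^ 2) + η * (A / r * nn F φ) := by ring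
      rw [e11] at e2
      rw [e12]
      have e13 : 0 ≤ η * (A / r * nn F φ) := by positivity
      linarith

end

end Pool.Agent.RS
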